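import Pool.Agent.P8H48.FR.Stm

/-!
# FR/ELA and FR/ELC
-/

set_option autoImplicit false

namespace Pool.Agent.P8H71.FR

open Pool.Agent.P8H48.FR Matrix

theorem ela : S_ELA := by
  intro B _ n N hN
  have h1 : N * N⁻¹ = 1 := Matrix.mul_nonsing_inv N hN
  have h2 : N⁻¹ * N = 1 := Matrix.nonsing_inv_mul N hN
  have key : Matrix.fromBlocks N 0 0 N⁻¹ =
      fromBlocks 1 N 0 1 * fromBlocks 1 0 (-N⁻¹) 1 * fromBlocks 1 N 0 1 *
        (fromBlocks 1 (-1) 0 1 * fromBlocks 1 0 1 1 * fromBlocks 1 (-1) 0 1) := by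
    simp only [fromBlocks_multiply, Matrix.one_mul, Matrix.mul_one, Matrix.zero_mul,
      Matrix.mul_zero, zero_add, add_zero, mul_neg, neg_mul, h1, h2]
    simp
  rw [key]
  refine Submonoid.mul_mem _ (Submonoid.mul_mem _ (Submonoid.mul_mem _ ?_ ?_) ?_)
    (Submonoid.mul_mem _ (Submonoid.mul_mem _ ?_ ?_) ?_)
  · exact Submonoid.subset_closure ⟨_, Or.inl rfl⟩
  · exact Submonoid.subset_closure ⟨_, Or.inr rfl⟩
  · exact Submonoid.subset_closure ⟨_, Or.inl rfl⟩
  · exact Submonoid.subset_closure ⟨_, Or.inl rfl⟩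
  · exact Submonoid.subset_closure ⟨_, Or.inr rfl⟩
  · exact Submonoid.subset_closure ⟨_, Or.inl rfl⟩

theorem prodW_append (k : Type) [CommRing k] {m d : ℕ} (w v : List (Let m d)) :
    prodW k (w ++ v) = prodW k w * prodW k v := by
  unfold prodW
  rw [List.map_append, List.prod_append]

/-- the submonoid of the words -/
def words (k : Type) [CommRing k] (m d : ℕ) :
    Submonoid (Matrix (Fin m) (Fin m) (MvPolynomial (Fin d) k)) where
  carrier := {M | ∃ w : List (Let m d), prodW k w = M}
  one_mem' := ⟨[], by simp [prodW]⟩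
  mul_mem' := by
    rintro _ _ ⟨w, rfl⟩ ⟨v, rfl⟩
    exact ⟨w ++ v, prodW_append k w v⟩

section big

variable {R : Type} [CommRing R] {T P : Type} [Fintype T] [DecidableEq T] [Fintype P] [DecidableEq P]
  {m : ℕ}

/-- the embedding in larger matrices -/
def big (e : T ⊕ P ≃ Fin m) : Matrix T T R →* Matrix (Fin m) (Fin m) R where
  toFun M := Matrix.reindex e e (fromBlocks M 0 0 1)
  map_one' := by simp
  map_mul' M N := by
    rw [show fromBlocks (M * N) 0 0 (1 : Matrix P P R) = fromBlocks M 0 0 1 * fromBlocks N 0 0 1 by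
      simp [fromBlocks_multiply]]
    simp only [Matrix.reindex_apply]
    rw [Matrix.submatrix_mul_equiv]

theorem big_transvection (e : T ⊕ P ≃ Fin m) (i j : T) (x : R) :
    big e (transvection i j x) = transvection (e (Sum.inl i)) (e (Sum.inl j)) x := by
  ext a b
  obtain ⟨a, rfl⟩ := e.surjective a
  obtain ⟨b, rfl⟩ := e.surjective b
  simp only [big, MonoidHom.coe_mk, OneHom.coe_mk, Matrix.reindex_apply, Matrix.submatrix_apply,
    Equiv.symm_apply_apply, transvection, Matrix.add_apply, Matrix.single_apply, Matrix.one_apply,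
    e.injective.eq_iff]
  rcases a with a | a <;> rcases b with b | b <;>
    simp [Matrix.one_apply, Matrix.single_apply]

end big

theorem elc : S_ELC := by
  intro hA hB p _ n d N hN
  obtain ⟨e⟩ : Nonempty (((Fin n ⊕ Fin n) ⊕ Fin 3) ≃ Fin (n + n + 3)) :=
    ⟨(Equiv.sumCongr finSumFinEquiv (Equiv.refl _)).trans finSumFinEquiv⟩
  have htr : ∀ (i j : Fin n ⊕ Fin n), i ≠ j → ∀ f : MvPolynomial (Fin d) (ZMod p),
      big e (transvection i j f) ∈ words (ZMod p) (n + n + 3) d := by
    intro i j hij f
    rw [big_transvection]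
    have hne : e (Sum.inl i) ≠ e (Sum.inl j) := by
      intro h
      exact hij (Sum.inl_injective (e.injective h))
    exact hB p (n + n + 3) d (by omega) _ _ hne f
  have hE : ∀ M : Matrix (Fin n) (Fin n) (MvPolynomial (Fin d) (ZMod p)),
      big e (fromBlocks 1 M 0 1) ∈ words (ZMod p) (n + n + 3) d := by
    intro M
    induction M using Matrix.induction_on' with
    | h_zero =>
      rw [Matrix.fromBlocks_one, map_one]
      exact Submonoid.one_mem _
    | h_add A B hA hB =>
      have : (fromBlocks 1 (A + B) 0 1 :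
          Matrix (Fin n ⊕ Fin n) (Fin n ⊕ Fin n) (MvPolynomial (Fin d) (ZMod p))) =
          fromBlocks 1 A 0 1 * fromBlocks 1 B 0 1 := by
        simp [fromBlocks_multiply, add_comm]
      rw [this, map_mul]
      exact Submonoid.mul_mem _ hA hB
    | h_std_basis i j x =>
      have : fromBlocks 1 (Matrix.single i j x) 0
          (1 : Matrix (Fin n) (Fin n) (MvPolynomial (Fin d) (ZMod p))) =
          transvection (Sum.inl i) (Sum.inr j) x := by
        ext a b
        rcases a with a | a <;> rcases b with b | b <;>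
          simp [transvection, Matrix.one_apply, Matrix.single_apply]
      rw [this]
      exact htr _ _ (by simp) _
  have hF : ∀ M : Matrix (Fin n) (Fin n) (MvPolynomial (Fin d) (ZMod p)),
      big e (fromBlocks 1 0 M 1) ∈ words (ZMod p) (n + n + 3) d := by
    intro M
    induction M using Matrix.induction_on' with
    | h_zero =>
      rw [Matrix.fromBlocks_one, map_one]
      exact Submonoid.one_mem _
    | h_add A B hA hB =>
      have : (fromBlocks 1 0 (A + B) 1 :
          Matrix (Fin n ⊕ Fin n) (Fin n ⊕ Fin n) (MvPolynomial (Fin d) (ZMod p))) =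
          fromBlocks 1 0 A 1 * fromBlocks 1 0 B 1 := by
        simp [fromBlocks_multiply]
      rw [this, map_mul]
      exact Submonoid.mul_mem _ hA hB
    | h_std_basis i j x =>
      have : fromBlocks 1 0 (Matrix.single i j x)
          (1 : Matrix (Fin n) (Fin n) (MvPolynomial (Fin d) (ZMod p))) =
          transvection (Sum.inr i) (Sum.inl j) x := by
        ext a b
        rcases a with a | a <;> rcases b with b | b <;>
          simp [transvection, Matrix.one_apply, Matrix.single_apply]
      rw [this]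
      exact htr _ _ (by simp) _
  have hmem : big e (fromBlocks N 0 0 N⁻¹) ∈ words (ZMod p) (n + n + 3) d := by
    have h1 := hA (MvPolynomial (Fin d) (ZMod p)) n N hN
    have h2 : Submonoid.closure
      {M : Matrix (Fin n ⊕ Fin n) (Fin n ⊕ Fin n) (MvPolynomial (Fin d) (ZMod p)) |
        ∃ M' : Matrix (Fin n) (Fin n) (MvPolynomial (Fin d) (ZMod p)),
          M = Matrix.fromBlocks 1 M' 0 1 ∨ M = Matrix.fromBlocks 1 0 M' 1} ≤
        (words (ZMod p) (n + n + 3) d).comap (big e) := by
      rw [Submonoid.closure_le]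
      rintro M ⟨M', rfl | rfl⟩
      · exact hE M'
      · exact hF M'
    exact h2 h1
  obtain ⟨w, hw⟩ := hmem
  obtain ⟨s, hs⟩ : ∃ s : Fin n ↪ Fin (n + n + 3), ∀ i, s i = e (Sum.inl (Sum.inl i)) :=
    ⟨⟨fun i => e (Sum.inl (Sum.inl i)), fun a b h => by simpa using e.injective h⟩, fun _ => rfl⟩
  refine ⟨n + n + 3, s, w, ?_, ?_⟩
  · intro i j
    rw [hw, hs, hs]
    simp [big]
  · intro i j hj
    rw [hw, hs]
    obtain ⟨j', rfl⟩ := e.surjective j
    rcases j' with (j' | j') | j'
    · exact absurd ⟨j', hs j'⟩ hj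
    · simp [big]
    · simp [big]

end Pool.Agent.P8H71.FR
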