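import Pool.Agent.P8H48.FR.Stm

/-!
# FR/BAS
-/

set_option autoImplicit false

namespace Pool.Agent.P8H71.FR

open Pool.Agent.P8H48.FR
open scoped TensorProduct

/-- Frobenius is additive if `p = 0` -/
theorem add_pow_zero {C : Type*} [CommRing C] (p : ℕ) (hp : p.Prime) (h : (p : C) = 0) (x y : C) :
    (x + y) ^ p = x ^ p + y ^ p := by
  obtain ⟨r, hr⟩ := exists_add_pow_prime_eq hp x y
  rw [hr, h]
  ring

theorem sub_pow_zero {C : Type*} [CommRing C] (p : ℕ) (hp : p.Prime) (h : (p : C) = 0) (x y : C) :
    (x - y) ^ p = x ^ p - y ^ p := by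
  have := add_pow_zero p hp h (x - y) y
  rw [sub_add_cancel] at this
  rw [this]
  ring

theorem sum_pow_zero {C : Type*} [CommRing C] (p : ℕ) (hp : p.Prime) (h : (p : C) = 0)
    {ι : Type*} (s : Finset ι) (f : ι → C) : (∑ i ∈ s, f i) ^ p = ∑ i ∈ s, f i ^ p := by
  classical
  induction s using Finset.induction_on with
  | empty => simp [hp.ne_zero]
  | insert a s ha ih => rw [Finset.sum_insert ha, Finset.sum_insert ha, add_pow_zero p hp h, ih]

/-- the algebra is generated by the `p`-th powers -/
theorem adjoin_eq_top (p : ℕ) (hp : p.Prime) {B A : Type} [CommRing B] [CommRing A] [Algebra B A]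
    [Algebra.FormallyUnramified B A] [Module.Finite B A] (h : (p : A) = 0) :
    Algebra.adjoin B (Set.range fun a : A => a ^ p) = ⊤ := by
  classical
  set A' := Algebra.adjoin B (Set.range fun a : A => a ^ p) with hA'
  have hfin : Module.Finite A' A := Module.Finite.of_restrictScalars_finite B A' A
  let g₁ : A →ₐ[B] (A ⊗[A'] A) :=
    (Algebra.TensorProduct.includeLeft : A →ₐ[A'] (A ⊗[A'] A)).restrictScalars B
  let g₂ : A →ₐ[B] (A ⊗[A'] A) :=
    (Algebra.TensorProduct.includeRight : A →ₐ[A'] (A ⊗[A'] A)).restrictScalars B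
  have hg1 : ∀ a, g₁ a = a ⊗ₜ[A'] (1 : A) := fun a => rfl
  have hg2 : ∀ a, g₂ a = (1 : A) ⊗ₜ[A'] a := fun a => rfl
  have hp0 : ((p : ℕ) : A ⊗[A'] A) = 0 := by
    have := congrArg g₁ h
    rw [map_natCast, map_zero] at this
    exact this
  -- the `p`-th powers of the differences vanish
  have hnil : ∀ a : A, (g₁ a - g₂ a) ^ p = 0 := by
    intro a
    rw [sub_pow_zero p hp hp0, ← map_pow, ← map_pow, hg1, hg2, sub_eq_zero]
    have hmem : a ^ p ∈ A' := Algebra.subset_adjoin ⟨a, rfl⟩
    have e : a ^ p = (⟨a ^ p, hmem⟩ : A') • (1 : A) := by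
      rw [Subalgebra.smul_def]
      simp
    rw [e, TensorProduct.smul_tmul]
  -- the ideal of the differences
  obtain ⟨n, s, hs⟩ := Module.Finite.exists_fin (R := B) (M := A)
  let I : Ideal (A ⊗[A'] A) := Ideal.span (Set.range fun i : Fin n => g₁ (s i) - g₂ (s i))
  have hI : ∀ a : A, g₁ a - g₂ a ∈ I := by
    intro a
    have ha : a ∈ Submodule.span B (Set.range s) := by rw [hs]; trivial
    induction ha using Submodule.span_induction with
    | mem x hx =>
      obtain ⟨i, rfl⟩ := hx
      exact Ideal.subset_span ⟨i, rfl⟩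
    | zero => rw [map_zero, map_zero, sub_zero]; exact I.zero_mem
    | add x y _ _ hx hy =>
      have : g₁ (x + y) - g₂ (x + y) = (g₁ x - g₂ x) + (g₁ y - g₂ y) := by
        rw [map_add, map_add]; ring
      rw [this]
      exact I.add_mem hx hy
    | smul b x _ hx =>
      have : g₁ (b • x) - g₂ (b • x) = algebraMap B (A ⊗[A'] A) b * (g₁ x - g₂ x) := by
        rw [Algebra.smul_def b x, map_mul, map_mul, AlgHom.commutes, AlgHom.commutes, ← mul_sub]
      rw [this]
      exact I.mul_mem_left _ hx
  have hIfg : I.FG := ⟨(Set.finite_range fun i : Fin n => g₁ (s i) - g₂ (s i)).toFinset, by simp [I]⟩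
  have hInil : IsNilpotent I := by
    rw [hIfg.isNilpotent_iff_le_nilradical]
    rw [Ideal.span_le]
    rintro _ ⟨i, rfl⟩
    exact ⟨p, hnil (s i)⟩
  have heq : g₁ = g₂ := by
    apply Algebra.FormallyUnramified.lift_unique I hInil
    ext a
    simp only [AlgHom.coe_comp, Function.comp_apply, Ideal.Quotient.mkₐ_eq_mk]
    exact (Ideal.Quotient.eq).2 (hI a)
  -- surjectivity
  have hsurj : Function.Surjective (algebraMap A' A) := by
    rw [← Algebra.isEpi_iff_surjective_algebraMap_of_finite, Algebra.isEpi_iff_forall_one_tmul_eq]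
    intro a
    rw [← hg1, ← hg2, heq]
  rw [eq_top_iff]
  rintro a -
  obtain ⟨a', rfl⟩ := hsurj a
  exact a'.2

theorem bas : S_BAS := by
  classical
  intro p hp B A _ _ _ _ _ n e
  have hp' := hp.out
  have hpB : (p : B) = 0 := CharP.cast_eq_zero B p
  have hpA : (p : A) = 0 := by
    have := congrArg (algebraMap B A) hpB
    rwa [map_natCast, map_zero] at this
  have hfin : Module.Finite B A := Module.Finite.of_basis e
  have htop := adjoin_eq_top p hp' (B := B) (A := A) hpA
  -- the span of the `p`-th powers of the basis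
  have hspan1 : ∀ a : A, a ^ p ∈ Submodule.span B (Set.range fun i => e i ^ p) := by
    intro a
    rw [← e.sum_repr a, sum_pow_zero p hp' hpA]
    refine Submodule.sum_mem _ fun i _ => ?_
    rw [smul_pow]
    exact Submodule.smul_mem _ _ (Submodule.subset_span ⟨i, rfl⟩)
  have hspan : ∀ a : A, a ∈ Submodule.span B (Set.range fun i => e i ^ p) := by
    intro a
    have ha : a ∈ Algebra.adjoin B (Set.range fun a : A => a ^ p) := by rw [htop]; trivial
    have ha' : a ∈ Submodule.span B (Submonoid.closure (Set.range fun a : A => a ^ p) : Set A) := by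
      rw [← Algebra.adjoin_eq_span]
      exact ha
    refine Submodule.span_le.2 ?_ ha'
    intro x hx
    have hx2 : ∃ y : A, y ^ p = x := by
      induction hx using Submonoid.closure_induction with
      | mem x hx => exact hx
      | one => exact ⟨1, one_pow _⟩
      | mul x y _ _ hx hy =>
        obtain ⟨u, rfl⟩ := hx
        obtain ⟨v, rfl⟩ := hy
        exact ⟨u * v, mul_pow _ _ _⟩
    obtain ⟨y, rfl⟩ := hx2
    exact hspan1 y
  have hM : ∀ j : Fin n, ∃ c : Fin n → B, ∑ k, c k • e k ^ p = e j := fun j =>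
    (Submodule.mem_span_range_iff_exists_fun B).1 (hspan (e j))
  choose M hM using hM
  refine ⟨Matrix.of fun i j => e.repr (e i ^ p) j, ?_, ?_⟩
  · have hmul : (Matrix.of M) * (Matrix.of fun i j => e.repr (e i ^ p) j) = 1 := by
      ext i j
      rw [Matrix.mul_apply, Matrix.one_apply]
      have h1 := congrArg (fun x => e.repr x j) (hM i)
      simp only [map_sum, map_smul, Finsupp.coe_finsetSum, Finset.sum_apply, Finsupp.smul_apply,
        smul_eq_mul, Module.Basis.repr_self] at h1
      rw [Finsupp.single_apply] at h1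
      simpa using h1
    have hdet := congrArg Matrix.det hmul
    rw [Matrix.det_mul, Matrix.det_one] at hdet
    exact IsUnit.of_mul_eq_one_right _ hdet
  · intro i
    exact (e.sum_repr (e i ^ p)).symm

end Pool.Agent.P8H71.FR
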